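import Pool.Agent.Helper18.SU.Main3

/-!
Sumner's conjecture for all `n ≥ 10 ^ 30`: every tournament with `2 n - 2` vertices contains
every oriented tree with `n` vertices.
-/

set_option autoImplicit false

namespace Pool.Agent.Results.MP_f2ad72_co.LargeOrder

theorem result :
    ∀ n : ℕ, 10 ^ 30 ≤ n →
      ∀ T : Digraph (Fin (2 * n - 2)),
        (∀ u v, T.Adj u v → ¬ T.Adj v u) →
        (∀ u v, u ≠ v → T.Adj u v ∨ T.Adj v u) →
        ∀ D : Digraph (Fin n),
          (∀ a b, D.Adj a b → ¬ D.Adj b a) →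
          (SimpleGraph.fromRel D.Adj).IsTree →
          ∃ f : Fin n → Fin (2 * n - 2),
            Function.Injective f ∧ ∀ a b, D.Adj a b → T.Adj (f a) (f b) :=
  Pool.Agent.Helper18.SU.fin3

end Pool.Agent.Results.MP_f2ad72_co.LargeOrder
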