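import Pool.Agent.Helper18.SU.Main1

/-!
Oriented trees containing a path with `ℓ` vertices: tournaments with
`2 n - ℓ + 1 + O(√(n - ℓ) log n)` vertices suffice. In particular the bound `2 n - 2` holds for
every oriented tree with a path on `C √n log n` vertices.
-/

set_option autoImplicit false

namespace Pool.Agent.Results.MP_f2ad72_co.LongPath

theorem result :
    ∀ (n : ℕ) (D : Digraph (Fin n)), (∀ a b, D.Adj a b → ¬ D.Adj b a) →
      (SimpleGraph.fromRel D.Adj).IsTree →
      ∀ (a b : Fin n) (w : (SimpleGraph.fromRel D.Adj).Walk a b), w.IsPath →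
      ∀ N : ℕ, 2 * (n : ℝ) - (w.length + 1) + 1 +
          (8 * Real.sqrt ((n - (w.length + 1) : ℕ) : ℝ) * (Real.log n + 3) +
            54 * Real.log n * (Real.log n + 6)) ≤ N →
      ∀ T : Digraph (Fin N), (∀ u v, T.Adj u v → ¬ T.Adj v u) →
        (∀ u v, u ≠ v → T.Adj u v ∨ T.Adj v u) →
        ∃ f : Fin n → Fin N, Function.Injective f ∧ ∀ a b, D.Adj a b → T.Adj (f a) (f b) :=
  Pool.Agent.Helper18.SU.fpa

end Pool.Agent.Results.MP_f2ad72_co.LongPath
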