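import Pool.Agent.Helper18.SU.Main1

/-!
Oriented trees in tournaments: every tournament with `F + 2 (n - k) + O(√(n - k) log n)` vertices
contains the whole tree as soon as all tournaments with `F` vertices contain a fixed subtree with
`k` vertices. With one vertex as the subtree this is an explicit `2 n + O(√n log n)` for all `n`.
-/

set_option autoImplicit false

namespace Pool.Agent.Results.MP_f2ad72_co.Transfer

theorem result :
    ∀ (n : ℕ) (D : Digraph (Fin n)), (∀ a b, D.Adj a b → ¬ D.Adj b a) →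
      (SimpleGraph.fromRel D.Adj).IsTree →
      ∀ K : Finset (Fin n), K.Nonempty →
      ((SimpleGraph.fromRel D.Adj).induce (K : Set (Fin n))).Preconnected →
      ∀ F : ℕ, F ≤ 3 * n →
      (∀ T : Digraph (Fin F), (∀ u v, T.Adj u v → ¬ T.Adj v u) →
        (∀ u v, u ≠ v → T.Adj u v ∨ T.Adj v u) →
        ∃ f : Fin n → Fin F, (∀ a ∈ K, ∀ b ∈ K, f a = f b → a = b) ∧
          ∀ a ∈ K, ∀ b ∈ K, D.Adj a b → T.Adj (f a) (f b)) →
      ∀ N : ℕ, (F : ℝ) + 2 * (n - K.card : ℕ) +
          (8 * Real.sqrt ((n - K.card : ℕ) : ℝ) * (Real.log n + 3) +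
            54 * Real.log n * (Real.log n + 6)) ≤ N →
      ∀ T : Digraph (Fin N), (∀ u v, T.Adj u v → ¬ T.Adj v u) →
        (∀ u v, u ≠ v → T.Adj u v ∨ T.Adj v u) →
        ∃ f : Fin n → Fin N, Function.Injective f ∧ ∀ a b, D.Adj a b → T.Adj (f a) (f b) :=
  Pool.Agent.Helper18.SU.ftr

end Pool.Agent.Results.MP_f2ad72_co.Transfer
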